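import Pool.Agent.Q283.FG.Stm2
import Pool.Agent.Q261.JQ.ID
import Pool.Agent.Q261.JQ.PAR0

/-! Project FG (helper283), job TPA (helper94): the number of the solutions is a power of `2` with an
exponent of the given parity. -/

set_option autoImplicit false

namespace Pool.Agent.Q94.FG

open Pool.Agent.Q283.FG Pool.Agent.Q7.LK Module

theorem rec_NG {f k : ℕ} (t₀ : Fin f) (τ : Tab 2 f k) : Q44.JQ.Rec (NG t₀ τ) τ.1 t₀ := by
  have h2 : ∀ a b c : ZMod 2, a = a + b * c + c * b := by decide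
  intro p q hpq
  unfold NG Mt gs
  rcases lt_or_gt_of_ne hpq with h | h
  · rw [dif_pos h, dif_neg (lt_asymm h), dif_pos h]
    exact h2 _ _ _
  · rw [dif_neg (lt_asymm h), dif_pos h, dif_pos h]

theorem tpa : Pool.Agent.Q283.FG.S_TPA := by
  intro f D ρ hOk k τ
  refine ⟨finrank (ZMod 2) (Q44.JQ.Sel D (NG D.s₀ τ) τ.1), ?_, ?_⟩
  · unfold nSelG
    rw [Module.natCard_eq_pow_finrank (K := ZMod 2), Nat.card_zmod]
  · exact Pool.Agent.Q261.JQ.t_PAR0 Pool.Agent.Q261.JQ.t_ID (Fin f) _ (Fin k) D ρ hOk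
      (NG D.s₀ τ) τ.1 (rec_NG D.s₀ τ)

end Pool.Agent.Q94.FG
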